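import Pool.Agent.N495.TS.StmS

/-!
# The size of a torsion group of a quotient of a product (helper152, for helper495)
-/

set_option autoImplicit false

namespace Pool.Agent.N152.TS

open Pool.Agent.N495.TS

theorem fib {A C : Type*} [AddCommGroup A] [AddCommGroup C] (f : A →+ C) (S : Set C)
    (hS : S.Finite) (hk : {x : A | f x = 0}.Finite) (N : ℕ) (hN : {x : A | f x = 0}.ncard ≤ N) :
    (f ⁻¹' S).Finite ∧ (f ⁻¹' S).ncard ≤ S.ncard * N := by
  classical
  have h1 : ∀ b : C, (f ⁻¹' {b}).Finite ∧ (f ⁻¹' {b}).ncard ≤ N := by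
    intro b
    rcases (f ⁻¹' {b}).eq_empty_or_nonempty with h | ⟨x0, h0⟩
    · rw [h]
      exact ⟨Set.finite_empty, by simp⟩
    · have h2 : (f ⁻¹' {b}) = (fun x => x + x0) '' {x : A | f x = 0} := by
        ext y
        constructor
        · intro hy
          refine ⟨y - x0, ?_, sub_add_cancel _ _⟩
          have e1 : f y = b := hy
          have e2 : f x0 = b := h0
          show f (y - x0) = 0
          rw [map_sub, e1, e2, sub_self]
        · rintro ⟨x, hx, rfl⟩
          have e1 : f x = 0 := hx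
          have e2 : f x0 = b := h0
          show f (x + x0) = b
          rw [map_add, e1, e2, zero_add]
      rw [h2]
      exact ⟨hk.image _, (Set.ncard_image_le hk).trans hN⟩
  have hfin : (f ⁻¹' S).Finite := Set.Finite.preimage' hS fun b _ => (h1 b).1
  refine ⟨hfin, ?_⟩
  have h3 := Finset.card_le_mul_card_image (f := f) hfin.toFinset N (by
    intro a _
    have e1 : ((hfin.toFinset.filter fun x => f x = a) : Finset A) ⊆ (h1 a).1.toFinset := by
      intro x hx
      rw [Finset.mem_filter] at hx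
      rw [Set.Finite.mem_toFinset]
      exact hx.2
    refine (Finset.card_le_card e1).trans ?_
    rw [← Set.ncard_eq_toFinset_card _ (h1 a).1]
    exact (h1 a).2)
  have h4 : (hfin.toFinset.image f).card ≤ S.ncard := by
    rw [Set.ncard_eq_toFinset_card _ hS]
    refine Finset.card_le_card ?_
    intro y hy
    rw [Finset.mem_image] at hy
    obtain ⟨x, hx, rfl⟩ := hy
    rw [Set.Finite.mem_toFinset] at hx ⊢
    exact hx
  rw [Set.ncard_eq_toFinset_card _ hfin]
  calc _ ≤ N * (hfin.toFinset.image f).card := h3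
    _ ≤ N * S.ncard := Nat.mul_le_mul_left _ h4
    _ = S.ncard * N := mul_comm _ _

theorem tors {A : Type*} [AddCommGroup A]
    (h : ∀ q : ℕ, q.Prime → ∃ P Q : A, q • P = 0 ∧ q • Q = 0 ∧
      ∀ R : A, q • R = 0 → ∃ m n : ℤ, R = m • P + n • Q) (n : ℕ) (hn : 0 < n) :
    {x : A | n • x = 0}.Finite ∧ {x : A | n • x = 0}.ncard ≤ n ^ 2 := by
  classical
  have hp : ∀ q : ℕ, q.Prime →
      {x : A | q • x = 0}.Finite ∧ {x : A | q • x = 0}.ncard ≤ q ^ 2 := by
    intro q hq
    obtain ⟨P, Q, hP, hQ, hR⟩ := h q hq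
    have hP' : (q : ℤ) • P = 0 := by rw [natCast_zsmul]; exact hP
    have hQ' : (q : ℤ) • Q = 0 := by rw [natCast_zsmul]; exact hQ
    have hq0 : (0 : ℤ) < q := by exact_mod_cast hq.pos
    have hmod : ∀ (m : ℤ) (X : A), (q : ℤ) • X = 0 → m • X = (m % q) • X := by
      intro m X hX
      conv_lhs => rw [← Int.mul_ediv_add_emod m q, add_smul, mul_comm, mul_smul, hX, smul_zero,
        zero_add]
    have hsub : {x : A | q • x = 0} ⊆
        ((fun p : ℕ × ℕ => (p.1 : ℤ) • P + (p.2 : ℤ) • Q) ''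
          ((Finset.range q ×ˢ Finset.range q : Finset (ℕ × ℕ)) : Set (ℕ × ℕ))) := by
      intro R hR'
      obtain ⟨m, n, e⟩ := hR R hR'
      refine ⟨((m % q).toNat, (n % q).toNat), ?_, ?_⟩
      · rw [Finset.mem_coe, Finset.mem_product, Finset.mem_range, Finset.mem_range]
        have a1 := Int.emod_lt_of_pos m hq0
        have a2 := Int.emod_lt_of_pos n hq0
        have a3 := Int.emod_nonneg m hq0.ne'
        have a4 := Int.emod_nonneg n hq0.ne'
        constructor
        · show (m % q).toNat < q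
          omega
        · show (n % q).toNat < q
          omega
      · show (((m % q).toNat : ℕ) : ℤ) • P + (((n % q).toNat : ℕ) : ℤ) • Q = R
        rw [Int.toNat_of_nonneg (Int.emod_nonneg m hq0.ne'),
          Int.toNat_of_nonneg (Int.emod_nonneg n hq0.ne'), ← hmod m P hP', ← hmod n Q hQ', e]
    have hf : ((fun p : ℕ × ℕ => (p.1 : ℤ) • P + (p.2 : ℤ) • Q) ''
          ((Finset.range q ×ˢ Finset.range q : Finset (ℕ × ℕ)) : Set (ℕ × ℕ))).Finite :=
      (Finset.finite_toSet _).image _
    refine ⟨hf.subset hsub, (Set.ncard_le_ncard hsub hf).trans ?_⟩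
    refine (Set.ncard_image_le (Finset.finite_toSet _)).trans ?_
    rw [Set.ncard_coe_finset, Finset.card_product, Finset.card_range, sq]
  revert hn
  refine induction_on_primes (motive := fun n => 0 < n →
    {x : A | n • x = 0}.Finite ∧ {x : A | n • x = 0}.ncard ≤ n ^ 2) ?_ ?_ ?_ n
  · intro h0
    exact absurd h0 (lt_irrefl _)
  · intro _
    have e1 : {x : A | 1 • x = 0} = {0} := by
      ext x
      simp
    rw [e1]
    exact ⟨Set.finite_singleton _, by simp⟩
  · intro p a hpp ih hpa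
    have ha : 0 < a := Nat.pos_of_mul_pos_left hpa |> fun h => by
      rcases Nat.eq_zero_or_pos a with h0 | h0
      · rw [h0, mul_zero] at hpa
        exact absurd hpa (lt_irrefl _)
      · exact h0
    obtain ⟨i1, i2⟩ := ih ha
    obtain ⟨j1, j2⟩ := hp p hpp
    have := fib (nsmulAddMonoidHom p : A →+ A) {x : A | a • x = 0} i1 j1 (p ^ 2) j2
    have e1 : (nsmulAddMonoidHom p : A →+ A) ⁻¹' {x : A | a • x = 0} =
        {x : A | (p * a) • x = 0} := by
      ext x
      show a • (p • x) = 0 ↔ (p * a) • x = 0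
      rw [← mul_smul, mul_comm]
    rw [e1] at this
    refine ⟨this.1, this.2.trans ?_⟩
    rw [mul_pow, mul_comm]
    exact Nat.mul_le_mul_left _ i2

theorem quo {G : Type*} [AddCommGroup G] (Γ : AddSubgroup G) (hΓ : (Γ : Set G).Finite) (e N : ℕ)
    (h1 : {x : G | e • x = 0}.Finite) (h2 : {x : G | e • x = 0}.ncard ≤ N) :
    {x : G ⧸ Γ | e • x = 0}.Finite ∧ {x : G ⧸ Γ | e • x = 0}.ncard ≤ N := by
  obtain ⟨f1, f2⟩ := fib (nsmulAddMonoidHom e : G →+ G) (Γ : Set G) hΓ h1 N h2
  have e1 : (nsmulAddMonoidHom e : G →+ G) ⁻¹' (Γ : Set G) =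
      (QuotientAddGroup.mk : G → G ⧸ Γ) ⁻¹' {x : G ⧸ Γ | e • x = 0} := by
    ext y
    show e • y ∈ Γ ↔ e • ((y : G ⧸ Γ)) = 0
    rw [← QuotientAddGroup.mk_nsmul, QuotientAddGroup.eq_zero_iff]
  rw [e1] at f1 f2
  have hfin : {x : G ⧸ Γ | e • x = 0}.Finite :=
    Set.Finite.of_preimage f1 QuotientAddGroup.mk_surjective
  refine ⟨hfin, ?_⟩
  have e2 := Nat.card_congr (QuotientAddGroup.preimageMkEquivAddSubgroupProdSet Γ
    {x : G ⧸ Γ | e • x = 0})
  rw [Nat.card_prod, Nat.card_coe_set_eq, Nat.card_coe_set_eq] at e2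
  have e3 : (Γ : Set G).ncard = Nat.card Γ := (Nat.card_coe_set_eq (Γ : Set G)).symm
  rw [e2, e3] at f2
  haveI : Finite Γ := hΓ
  exact Nat.le_of_mul_le_mul_left f2 Nat.card_pos

theorem t_SIZE : Pool.Agent.N495.TS.S_SIZE := by
  intro g V _ hV Γ hΓ T B hT
  classical
  have key : ∀ e : ℕ, 0 < e → {x : (∀ i, V i) ⧸ Γ | e • x = 0}.Finite ∧
      {x : (∀ i, V i) ⧸ Γ | e • x = 0}.ncard ≤ e ^ (2 * g) := by
    intro e he
    have hi := fun i => tors (hV i) e he
    have e1 : {x : ∀ i, V i | e • x = 0} = Set.pi Set.univ fun i => {x : V i | e • x = 0} := by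
      ext x
      constructor
      · intro hx i _
        have := congrFun (show e • x = 0 from hx) i
        exact this
      · intro hx
        show e • x = 0
        funext i
        exact hx i (Set.mem_univ _)
    refine quo Γ hΓ e _ ?_ ?_
    · rw [e1]
      exact Set.Finite.pi fun i => (hi i).1
    · rw [e1]
      haveI : ∀ i, Finite {x : V i | e • x = 0} := fun i => (hi i).1
      have e2 : Nat.card (Set.pi Set.univ fun i => {x : V i | e • x = 0} : Set (∀ i, V i)) =
          ∏ i, Nat.card {x : V i | e • x = 0} := by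
        rw [← Nat.card_pi]
        exact Nat.card_congr (Equiv.Set.univPi _)
      rw [← Nat.card_coe_set_eq, e2]
      calc ∏ i : Fin g, Nat.card {x : V i | e • x = 0} ≤ ∏ _i : Fin g, e ^ 2 := by
            refine Finset.prod_le_prod' fun i _ => ?_
            rw [Nat.card_coe_set_eq]
            exact (hi i).2
        _ = e ^ (2 * g) := by
            rw [Finset.prod_const, Finset.card_univ, Fintype.card_fin, ← pow_mul]
  have hB := hT 0 T.zero_mem
  have hfinT : (T : Set ((∀ i, V i) ⧸ Γ)).Finite := by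
    refine (key B.factorial (Nat.factorial_pos B)).1.subset ?_
    intro t ht
    obtain ⟨a1, a2⟩ := hT t ht
    have a3 : 0 < addOrderOf t := addOrderOf_pos_iff.2 a1
    obtain ⟨c, hc⟩ := Nat.dvd_factorial a3 a2
    show B.factorial • t = 0
    rw [hc, mul_comm, mul_smul, addOrderOf_nsmul_eq_zero, smul_zero]
  haveI : Finite T := hfinT
  refine ⟨this, ?_⟩
  obtain ⟨t, ht⟩ := AddMonoid.exists_addOrderOf_eq_exponent
    (AddMonoid.ExponentExists.of_finite (G := T))
  have a1 : addOrderOf t ≤ B := by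
    rw [← AddSubgroup.addOrderOf_coe]
    exact (hT t t.2).2
  have a2 : 0 < AddMonoid.exponent T := by
    rw [← ht]
    exact addOrderOf_pos t
  obtain ⟨k1, k2⟩ := key (AddMonoid.exponent T) a2
  have hsub : (T : Set ((∀ i, V i) ⧸ Γ)) ⊆
      {x : (∀ i, V i) ⧸ Γ | AddMonoid.exponent T • x = 0} := by
    intro x hx
    have := AddMonoid.exponent_nsmul_eq_zero (⟨x, hx⟩ : T)
    exact congrArg Subtype.val this
  have h5 := (Set.ncard_le_ncard hsub k1).trans k2
  rw [← Nat.card_coe_set_eq] at h5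
  refine le_trans h5 (Nat.pow_le_pow_left ?_ _)
  rw [← ht]
  exact a1

end Pool.Agent.N152.TS
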